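import Mathlib
import Pool.Agent.H.MP_375d90_nt.A

namespace Pool.Agent.Results.MP_375d90_nt.Yes

open Polynomial

/-- The order of `f`: the least `D ≥ 1` with `f ∣ 1 + x^D`. -/
noncomputable def ord (f : (ZMod 2)[X]) : ℕ := sInf {D : ℕ | 1 ≤ D ∧ f ∣ 1 + X ^ D}

/-- The number of nonzero coefficients of `(1 + x^D) / f`, divided by `D = ord f`. -/
noncomputable def gamma (f : (ZMod 2)[X]) : ℚ :=
  (((1 + X ^ ord f) / f).support.card : ℚ) / (ord f : ℚ)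

theorem result : ∃ f : (ZMod 2)[X], f.eval 0 = 1 ∧ 1 ≤ f.natDegree ∧ gamma f = 3 / 4 := by
  refine ⟨Pool.Agent.H.MP_375d90_nt.f, Pool.Agent.H.MP_375d90_nt.f_zero,
    Pool.Agent.H.MP_375d90_nt.f_deg, ?_⟩
  have h : ord Pool.Agent.H.MP_375d90_nt.f = 131064 := Pool.Agent.H.MP_375d90_nt.ord_f
  rw [gamma, h, Pool.Agent.H.MP_375d90_nt.wt]
  norm_num

end Pool.Agent.Results.MP_375d90_nt.Yes
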